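import Pool.Agent.N393.C13.All
import Pool.Agent.N393.C13.Hfp

/-!
# Flow-pairs of graphs without circuits with more than thirteen vertices (MP_53b341_co)

Let `G` be a finite bridgeless multigraph which has no circuit with more than thirteen vertices.
Then `G` has a `t`-flow-pair for every rational `t ≥ 1/2`.  The order, the degrees and the
connectivity of `G` are arbitrary, and `G` need not have a nowhere-zero 4-flow.

Proof.  It is shown that `G` has a `1/2`-flow-pair, and that all admissible values at a vertex of
degree three extend to a `1/2`-flow-pair.  Otherwise consider a graph with fewest edges apart from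
loops which is obtained from `G` by contraction of disjoint connected vertex sets and fails.
Circuits of the contraction lift to circuits of `G` which are not shorter.  By the theorem handed in
for MP_e6539c_co the contraction has a nowhere-zero 4-flow, which gives the pair and its
flexibility, or ten classes of vertices form a Petersen graph.  In the second case the theorem on
sums along cuts with three edges shows that these classes are single vertices, so there is a
component which is a Petersen graph (up to loops).  Contract nine of its ten vertices.  The pair of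
the smaller graph and the values at the ten vertices of the Petersen graph are combined with the
gluing theorem `R129/Hfp` of the starting library.
-/

set_option autoImplicit false

namespace Pool.Agent.Results.MP_53b341_co.CircumferenceThirteen

open Finset Pool.Agent.H160R2.HF Pool.Agent.N393.C13

/-- The graph has a circuit with `n` vertices: there are `n` different vertices
`v 0, ..., v (n - 1)` such that an edge joins `v i` and `v (i + 1)` for each `i`, where the indices
are read modulo `n`. -/
def HasCircuit {V E : Type} (G : OrGraph V E) (n : ℕ) : Prop :=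
  ∃ v : ℕ → V, (∀ i < n, ∀ j < n, v i = v j → i = j) ∧
    ∀ i < n, ∃ e, (G.t e = v i ∧ G.h e = v ((i + 1) % n)) ∨
      (G.t e = v ((i + 1) % n) ∧ G.h e = v i)

/-- A `p/q`-flow-pair: a 2-flow and a `(p+q+1)`-flow such that the second has absolute value at
least `q` on every edge on which the first vanishes. -/
def IsFlowPair {V E : Type} [Fintype V] [Fintype E] [DecidableEq V] [DecidableEq E]
    (G : OrGraph V E) (p q : ℕ) (φ₂ φ : E → ℤ) : Prop :=
  G.IsKFlow 2 φ₂ ∧ G.IsKFlow (p + q + 1) φ ∧ ∀ e, φ₂ e = 0 → (q : ℤ) ≤ |φ e|

theorem n1_of {V E : Type} [Fintype V] [Fintype E] [DecidableEq V] [DecidableEq E]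
    {G : OrGraph V E} (hb : ∀ X : Finset V, (G.cut X).card ≠ 1) :
    Pool.Agent.TH362.TF.N1 G.t G.h univ := by
  intro x h
  apply hb (univ.filter (fun v => x v = true))
  rw [← h]
  congr 1
  ext e
  rw [Pool.Agent.R129.Hfp.mem_cut, mem_filter, mem_filter]
  unfold Pool.Agent.TH362.TF.cut
  rw [mem_filter]
  cases h1 : x (G.t e) <;> cases h2 : x (G.h e) <;> simp

/-- Let `G` be a bridgeless multigraph which has no circuit with more than thirteen vertices, and
`t ≥ 1/2` a rational number.  Then `G` has a `t`-flow-pair. -/
theorem result (V E : Type) [Fintype V] [Fintype E] [DecidableEq V] [DecidableEq E]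
    (G : OrGraph V E) (hB : G.Bridgeless) (hc : ∀ n, 13 < n → ¬ HasCircuit G n)
    (t : ℚ) (ht : 1 / 2 ≤ t) :
    ∃ p q : ℕ, 0 < p ∧ 0 < q ∧ (p : ℚ) / q = t ∧ ∃ φ₂ φ : E → ℤ, IsFlowPair G p q φ₂ φ := by
  obtain ⟨⟨φ₂, φ₄, h1, ⟨h2, h3⟩, h4⟩, -⟩ := Hf.hp13 leaves G.t G.h
    (n1_of (G.cut_card_ne_one hB)) (NoLong.of fun n h v hv => hc n h ⟨v, hv⟩)
  have hpos : 0 < t := lt_of_lt_of_le (by norm_num) ht
  have hnum : 0 < t.num := Rat.num_pos.2 hpos
  obtain ⟨a, ha⟩ := Int.eq_ofNat_of_zero_le hnum.le
  have ha0 : 0 < a := by
    rw [ha] at hnum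
    exact_mod_cast hnum
  have hden := t.den_pos
  have hta : t = (a : ℚ) / t.den := by
    have h5 := (Rat.num_div_den t).symm
    rw [ha] at h5
    exact h5
  have hle : t.den ≤ 2 * a := by
    rw [hta, div_le_div_iff₀ (by norm_num) (by exact_mod_cast hden)] at ht
    have : ((t.den : ℕ) : ℚ) ≤ ((2 * a : ℕ) : ℚ) := by push_cast; linarith
    exact_mod_cast this
  refine ⟨2 * a, 2 * t.den, by omega, by omega, ?_, φ₂, fun e => t.den * φ₄ e, h1,
    ⟨fun e => ?_, fun v => ?_⟩, fun e he => ?_⟩
  · rw [hta]
    push_cast
    rw [← hta]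
    have h6 : (t.den : ℚ) ≠ 0 := by exact_mod_cast hden.ne'
    rw [mul_div_mul_left _ _ (by norm_num : (2 : ℚ) ≠ 0)]
    exact hta.symm
  · have h5 := h2 e
    rw [abs_mul, Nat.abs_cast]
    push_cast at h5 ⊢
    have h6 : (t.den : ℤ) * |φ₄ e| ≤ t.den * 3 := by
      apply mul_le_mul_of_nonneg_left _ (by positivity)
      linarith
    have h7 : (t.den : ℤ) ≤ 2 * a := by exact_mod_cast hle
    linarith
  · have h5 := h3 v
    rw [← Finset.mul_sum, ← Finset.mul_sum, h5]
  · have h5 := h4 e he
    rw [abs_mul, Nat.abs_cast]
    push_cast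
    have h6 : (t.den : ℤ) * 2 ≤ t.den * |φ₄ e| := mul_le_mul_of_nonneg_left h5 (by positivity)
    linarith

end Pool.Agent.Results.MP_53b341_co.CircumferenceThirteen
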